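import Pool.Agent.Helper23.CC.Spec

/-!
Part CRT: columns for all blocks from columns for the chain and the Chinese remainder theorem.
-/

set_option autoImplicit false

namespace Pool.Agent.Helper23.CC

open Polynomial

theorem crt (h : St_CHAIN) : St_ALG := by
  classical
  intro K _ A _ _ d Z hh N hd hmon hcop hsum
  have hmonic : (∏ a ∈ Zᶜ, hh a).Monic :=
    Polynomial.monic_prod_of_monic _ _ fun a ha => (hmon a (Finset.mem_compl.mp ha)).1
  have hdeg : (∏ a ∈ Zᶜ, hh a).natDegree = ∑ a ∈ Zᶜ, (hh a).natDegree :=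
    Polynomial.natDegree_prod_of_monic _ _ fun a ha => (hmon a (Finset.mem_compl.mp ha)).1
  obtain ⟨B, B0, hB, hall⟩ := h K A d Z (∏ a ∈ Zᶜ, hh a) N hd hmonic (by rw [hdeg]; exact hsum)
  refine ⟨fun a j => if a ∈ Z then B a j else B0 j %ₘ hh a, fun a j => ?_, fun f hf => ?_⟩
  · by_cases ha : a ∈ Z
    · simp only [ha, if_true]
      exact hB a ha j
    · simp only [ha, if_false]
      refine lt_of_lt_of_le (Polynomial.degree_modByMonic_lt _ (hmon a ha).1) ?_
      rw [Polynomial.degree_eq_natDegree (hmon a ha).1.ne_zero]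
      exact_mod_cast (hmon a ha).2
  · obtain ⟨f0, hf0⟩ := Ideal.exists_forall_sub_mem_ideal
      (I := fun a => Ideal.span {if a ∈ Z then 1 else hh a}) (by
        intro a b hab
        refine (Ideal.isCoprime_span_singleton_iff _ _).mpr ?_
        by_cases ha : a ∈ Z
        · simp only [ha, if_true]
          exact isCoprime_one_left
        · by_cases hb : b ∈ Z
          · simp only [hb, if_true]
            exact isCoprime_one_right
          · simp only [ha, hb, if_false]
            exact hcop a b ha hb hab) f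
    obtain ⟨lam, mu, h1, h2⟩ := hall f f0 fun a _ => hf a
    refine ⟨lam, mu, fun a ha => ?_, fun a ha => ?_⟩
    · simp only [ha, if_true]
      exact h1 a ha
    · simp only [ha, if_false]
      have ha' : a ∈ Zᶜ := Finset.mem_compl.mpr ha
      have e1 : hh a ∣ f0 - ∑ j, (C (lam j) * X + C (mu j)) * B0 j :=
        (Finset.dvd_prod_of_mem hh ha').trans h2
      have e2 : hh a ∣ f0 - f a := by
        have := Ideal.mem_span_singleton.mp (hf0 a)
        simpa only [ha, if_false] using this
      have e3 : ∀ j, hh a ∣ B0 j - B0 j %ₘ hh a := by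
        intro j
        refine ⟨B0 j /ₘ hh a, ?_⟩
        have := Polynomial.modByMonic_add_div (B0 j) (hh a)
        linear_combination -this
      have e4 : hh a ∣ ∑ j, (C (lam j) * X + C (mu j)) * (B0 j - B0 j %ₘ hh a) :=
        Finset.dvd_sum fun j _ => Dvd.dvd.mul_left (e3 j) _
      have e5 : f a - ∑ j, (C (lam j) * X + C (mu j)) * (B0 j %ₘ hh a) =
          (f0 - ∑ j, (C (lam j) * X + C (mu j)) * B0 j) - (f0 - f a) +
          ∑ j, (C (lam j) * X + C (mu j)) * (B0 j - B0 j %ₘ hh a) := by
        simp only [mul_sub, Finset.sum_sub_distrib]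
        ring
      rw [e5]
      exact dvd_add (dvd_sub e1 e2) e4

end Pool.Agent.Helper23.CC
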